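import Pool.Agent.H93.RC.Rcb

/-!
# [H93 RC D] Level 0

PROOF (complete). `X₀ = st N 0 = Re.Cu N 0` is discrete. Every cube `C(Qb n, X₀)` is constant (`Qb n` is preconnected; `IsPreconnected.constant` / `PreconnectedSpace.constant`), so `Ch R X₀ n = 0` for `n ≥ 1` (`gC_deg`), and for `n = 0` every cube is `chc N 0 c` (`Qb 0` is a point).
Let `i = inc h : st N 0 → st N K`. sur, `n ≥ 1`: `z ∈ subC (range i) n`, `z = mapC i v` (`lift R i univ (inc_emb ..)`), `v = 0`, `z = 0`, `β = 0`. sur, `n = 0`: `v = Σ c_f gC (chc N 0 f)` for some `c : N.cub 0 →₀ R` (`ch_span` or span induction), `β = c`, `jc β = mapC i v = z`.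
inj, `n ≥ 1`: `β ∈ Fk 0 n = ⊥`. inj, `n = 0`: `jc β = d w' + 0`, `w' ∈ subC (range i) 1`, `w' = mapC i v`, `v = 0`, so `jc β = 0 = mapC i (Σ β_f gC (chc N 0 f))`, `inj R i univ`: `Σ β_f gC (chc N 0 f) = 0`; apply `liftC (fun σ => Finsupp.single (σ default) 1)` (no `0`-cube is
degenerate): `β = 0`.
-/

set_option autoImplicit false

namespace Pool.H93.RC

open Pool.Agent.H4.CU Pool.Agent.H18.AR Pool.Agent.H59.FS Pool.H93.HM

variable {N : PreCub}

private theorem st0_disc : DiscreteTopology (st N 0) :=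
  inferInstanceAs (DiscreteTopology (Re.Cu N 0))

private theorem st0_const (n : ℕ) (σ : Pool.Agent.H4.CU.Cb (st N 0) n) (x y : Qb n) : σ x = σ y := by
  have h1 : DiscreteTopology (st N 0) := st0_disc
  have h2 : PreconnectedSpace (Qb n) := inferInstance
  exact h2.constant σ.continuous

private theorem st0_zero (R : Type) [CommRing R] (n : ℕ) (v : Ch R (st N 0) (n + 1)) : v = 0 := by
  have h1 : v ∈ Submodule.span R (Set.range (gC R : Pool.Agent.H4.CU.Cb (st N 0) (n + 1) →
      Ch R (st N 0) (n + 1))) := by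
    rw [ch_span]
    exact Submodule.mem_top
  have h2 : Submodule.span R (Set.range (gC R : Pool.Agent.H4.CU.Cb (st N 0) (n + 1) →
      Ch R (st N 0) (n + 1))) ≤ ⊥ := by
    rw [Submodule.span_le]
    rintro _ ⟨σ, rfl⟩
    exact gC_deg R ⟨0, fun x t => st0_const (n + 1) σ _ _⟩
  exact (Submodule.mem_bot R).1 (h2 h1)

private noncomputable def lc0 (N : PreCub) (R : Type) [CommRing R] :
    (N.cub 0 →₀ R) →ₗ[R] Ch R (st N 0) 0 :=
  Finsupp.linearCombination R fun f => gC R (chc N 0 f)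

private theorem lc0_surj (R : Type) [CommRing R] (v : Ch R (st N 0) 0) : ∃ c, lc0 N R c = v := by
  have h1 : v ∈ Submodule.span R (Set.range (gC R : Pool.Agent.H4.CU.Cb (st N 0) 0 →
      Ch R (st N 0) 0)) := by
    rw [ch_span]
    exact Submodule.mem_top
  have h2 : Submodule.span R (Set.range (gC R : Pool.Agent.H4.CU.Cb (st N 0) 0 →
      Ch R (st N 0) 0)) ≤ LinearMap.range (lc0 N R) := by
    rw [Submodule.span_le]
    rintro _ ⟨σ, rfl⟩
    refine ⟨Finsupp.single (σ (fun i => i.elim0) : Re.Cu N 0) 1, ?_⟩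
    unfold lc0
    rw [Finsupp.linearCombination_single, one_smul]
    congr 1
    ext x
    exact st0_const 0 σ _ _
  exact h2 h1

private theorem lc0_inj (R : Type) [CommRing R] (c : N.cub 0 →₀ R) (h : lc0 N R c = 0) : c = 0 := by
  obtain ⟨L, hL⟩ : ∃ L : Ch R (st N 0) 0 →ₗ[R] (N.cub 0 →₀ R), ∀ f : N.cub 0,
      L (gC R (chc N 0 f)) = Finsupp.single f 1 := by
    refine ⟨liftC (fun σ => Finsupp.single (σ (fun i => i.elim0) : Re.Cu N 0) 1)
      (fun σ hσ => ?_), fun f => ?_⟩
    · obtain ⟨i, _⟩ := hσ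
      exact i.elim0
    · rw [liftC_gC]
      rfl
  have h1 : L ∘ₗ lc0 N R = LinearMap.id := by
    refine Finsupp.lhom_ext' fun f => LinearMap.ext_ring ?_
    rw [LinearMap.comp_apply, LinearMap.comp_apply, LinearMap.comp_apply, LinearMap.id_apply,
      Finsupp.lsingle_apply]
    unfold lc0
    rw [Finsupp.linearCombination_single, one_smul, hL]
  have h2 := congrArg (fun f => f c) h1
  simp only [LinearMap.comp_apply, LinearMap.id_apply] at h2
  rw [← h2, h, map_zero]

private theorem jc0 (R : Type) [CommRing R] {K : ℕ} (h : 0 ≤ K) (c : N.cub 0 →₀ R) :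
    jc N R K 0 c = mapC R 0 (inc h) (lc0 N R c) := by
  have h1 : jc N R K 0 = mapC R 0 (inc h) ∘ₗ lc0 N R := by
    unfold jc
    rw [dif_pos h]
    refine Finsupp.lhom_ext' fun f => LinearMap.ext_ring ?_
    rw [LinearMap.comp_apply, LinearMap.comp_apply, LinearMap.comp_apply, Finsupp.lsingle_apply]
    unfold lc0
    rw [Finsupp.linearCombination_single, Finsupp.linearCombination_single, one_smul, one_smul,
      mapC_gC, pow_zero, one_smul]
  rw [h1]
  rfl

private theorem fk0 (R : Type) [CommRing R] (c : (CN N R).M 0) : c ∈ Fk N R 0 0 := by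
  unfold Fk
  rw [if_pos le_rfl]
  exact Submodule.mem_top

private theorem sub_lift (hG : ∀ k, Re.Good N (Re.stage N k)) (hL : N.LocFin)
    (hC : ∀ k, Countable (N.cub k)) (R : Type) [CommRing R] {K : ℕ} (h : 0 ≤ K) (n : ℕ)
    (z : Ch R (st N K) n) (hz : z ∈ subC R n (Set.range (inc (N := N) h))) :
    ∃ v : Ch R (st N 0) n, mapC R n (inc h) v = z := by
  rw [← Set.image_univ] at hz
  obtain ⟨v, -, hv⟩ := lift R (inc h) Set.univ (inc_emb hG hL hC h) n z hz
  exact ⟨v, hv⟩

theorem lev_zero (hG : ∀ k, Re.Good N (Re.stage N k)) (hL : N.LocFin) (hC : ∀ k, Countable (N.cub k))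
    (R : Type) [CommRing R] {K : ℕ} (h : 0 ≤ K) :
    Qis (K := CN N R) (K' := CC R (st N K)) (jc N R K) (Fk N R 0) ⊥ (Ak N R h) ⊥ := by
  constructor
  · intro n z hz
    cases n with
    | zero =>
      have hz' : z ∈ subC R 0 (Set.range (inc (N := N) h)) := hz
      obtain ⟨v, hv⟩ := sub_lift hG hL hC R h 0 z hz'
      obtain ⟨c, hc⟩ := lc0_surj R v
      have h1 : jc N R K 0 c = z := by
        rw [jc0 R h, hc, hv]
      refine ⟨c, fk0 R c, ?_⟩
      have key : ∀ x y : (CC R (st N K)).M 0, x = y →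
          x - y ∈ Pool.Agent.H4.CU.Bd (CC R (st N K)) (Ak N R h) ⊥ 0 := by
        intro x y hxy
        rw [hxy, sub_self]
        exact zero_mem _
      exact key _ _ h1.symm
    | succ n =>
      have hz' : z ∈ subC R (n + 1) (Set.range (inc (N := N) h)) := (mem_zc_succ.1 hz).1
      obtain ⟨v, hv⟩ := sub_lift hG hL hC R h (n + 1) z hz'
      rw [st0_zero R n v, map_zero] at hv
      refine ⟨0, zero_mem _, ?_⟩
      rw [map_zero, sub_zero, ← hv]
      exact zero_mem _
  · intro n β hβ hb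
    cases n with
    | zero =>
      obtain ⟨a, ha, b, hb', hab⟩ := Submodule.mem_sup.1 hb
      have hb0 : b = 0 := (Submodule.mem_bot R).1 hb'
      rw [hb0, add_zero] at hab
      obtain ⟨w, hw, hwa⟩ := ha
      have hw' : w ∈ subC R 1 (Set.range (inc (N := N) h)) := hw
      obtain ⟨v, hv⟩ := sub_lift hG hL hC R h 1 w hw'
      rw [st0_zero R 0 v, map_zero] at hv
      have h5 : a = 0 := hwa.symm.trans (by rw [← hv]; exact map_zero _)
      have h1 : mapC R 0 (inc h) (lc0 N R β) = 0 := (jc0 R h β).symm.trans (hab.symm.trans h5)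
      have h2 := inj R (inc h) Set.univ (inc_emb hG hL hC h) 0 (lc0 N R β)
        (by rw [subC_univ]; exact Submodule.mem_top) h1
      have h3 : β = 0 := lc0_inj R β h2
      rw [h3]
      exact zero_mem _
    | succ n =>
      have h1 : β ∈ Fk N R 0 (n + 1) := (mem_zc_succ.1 hβ).1
      unfold Fk at h1
      rw [if_neg (by omega)] at h1
      rw [(Submodule.mem_bot R).1 h1]
      exact zero_mem _

end Pool.H93.RC
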