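import Pool.Agent.H93.RC.Rcc
import Pool.Agent.H93.RC.Rcd
import Pool.Agent.H93.HM.Fiv

/-!
# [H93 RC E] Cellular homology is singular homology

PROOF (complete). (1) By induction on `k ≤ K`: `Qis (jc N R K) (Fk k) ⊥ (Ak (h : k ≤ K)) ⊥`: `k = 0`: `lev_zero`; step: `five` with `hj = jc_bd`, `A = Fk k`, `B = Fk (k + 1)`, `A' = Ak (k ≤ K)`, `B' = Ak (k + 1 ≤ K)`; `Sc` of `Fk`: `n + 1 ≤ k → n ≤ k`, `⊥`: `map_zero`
(`Submodule.mem_bot`); `Sc` of `Ak`: `sc_subCF`; `Fk k ≤ Fk (k + 1)`; `Ak ≤ Ak`: `subC_mono (inc_range ..)`; `jA`: `jc` maps `Fk k` into `Ak k`: for `x ∈ Fk k n` with `n ≤ k`: `jc x = Σ ..gC ((inc).comp (chc n c))`, the range of `inc (n ≤ K) ∘ chc` is in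
`range (inc (k ≤ K))` (`inc (n ≤ K) = inc (k ≤ K) ∘ inc (n ≤ k)`: `Nat.leRecOn_trans` or induction with `inc_succ`), `x = 0` if `k < n`.
(2) `k = K`: `Fk K = ⊤` (for `n > K` the module is zero: `N.cub n` is empty), `Ak (K ≤ K) = ⊤` (`inc_self`, `subC_univ`).
(3) `ry_sur`, `ry_inj`: unfold `Qis` with `Zc ⊤ ⊥ (n + 1)`: `d z = 0`; `Bd ⊤ ⊥`: the range of `d` (`add_zero`, `Submodule.mem_bot`). All with `M n = N.cub n →₀ R`, `d = N.bd R n` (`rfl`).
-/

set_option autoImplicit false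

namespace Pool.H93.RC

open Pool.Agent.H4.CU Pool.Agent.H18.AR Pool.Agent.H59.FS Pool.H93.HM

variable {N : PreCub}

private theorem fk_sc (R : Type) [CommRing R] (k : ℕ) : Sc (CN N R) (Fk N R k) := by
  intro n x hx
  unfold Fk at hx ⊢
  by_cases h : n ≤ k
  · rw [if_pos h]
    exact Submodule.mem_top
  · rw [if_neg (fun h1 => h (by omega))] at hx
    rw [(Submodule.mem_bot R).1 hx, map_zero]
    exact zero_mem _

private theorem fk_mono (R : Type) [CommRing R] (k : ℕ) : Fk N R k ≤ Fk N R (k + 1) := by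
  intro n
  unfold Fk
  by_cases h : n ≤ k
  · rw [if_pos h, if_pos (by omega)]
  · rw [if_neg h]
    exact bot_le

section
variable (hG : ∀ k, Re.Good N (Re.stage N k)) (hL : N.LocFin) (hC : ∀ k, Countable (N.cub k))
  (R : Type) [CommRing R]

include hG hL hC

private theorem range_le {n k K : ℕ} (h : n ≤ k) (h1 : k ≤ K) (h2 : n ≤ K) :
    Set.range (inc (N := N) h2) ⊆ Set.range (inc (N := N) h1) := by
  induction k, h using Nat.le_induction with
  | base => exact subset_rfl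
  | succ m hm ih => exact (ih (by omega)).trans (inc_range hG hL hC h1 (by omega))

private theorem jc_fk {k K : ℕ} (h : k ≤ K) (n : ℕ) (x : N.cub n →₀ R) (hx : x ∈ Fk N R k n) :
    jc N R K n x ∈ Ak N R h n := by
  unfold Fk at hx
  by_cases h1 : n ≤ k
  · have h2 : n ≤ K := by omega
    unfold jc
    rw [dif_pos h2, Finsupp.linearCombination_apply, Finsupp.sum]
    refine Submodule.sum_mem _ fun c _ => Submodule.smul_mem _ _ (Submodule.smul_mem _ _ ?_)
    refine gC_mem ?_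
    refine Set.Subset.trans ?_ (range_le hG hL hC h1 h h2)
    rintro z ⟨y, rfl⟩
    exact ⟨_, rfl⟩
  · rw [if_neg h1] at hx
    have hx0 : x = 0 := (Submodule.mem_bot R).1 hx
    rw [hx0, map_zero]
    exact zero_mem _

private theorem ry_k (K : ℕ) (hK : ∀ n, K < n → IsEmpty (N.cub n)) (k : ℕ) (h : k ≤ K) :
    Qis (K := CN N R) (K' := CC R (st N K)) (jc N R K) (Fk N R k) ⊥ (Ak N R h) ⊥ := by
  induction k with
  | zero => exact lev_zero hG hL hC R h
  | succ k ih =>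
    have h' : k ≤ K := by omega
    exact five (K := CN N R) (K' := CC R (st N K)) (j := jc N R K)
      (fun n x => jc_bd hG R K hK n x)
      (fk_sc R k) (fk_sc R (k + 1)) (sc_subCF R _) (sc_subCF R _) (fk_mono R k)
      (fun n => subC_mono (inc_range hG hL hC h h'))
      (fun n x hx => jc_fk hG hL hC R h' n x hx) (fun n x hx => jc_fk hG hL hC R h n x hx)
      (ih h') (lev_qis hG hL hC R h h')

end

theorem ry_qis (hG : ∀ k, Re.Good N (Re.stage N k)) (hL : N.LocFin) (hC : ∀ k, Countable (N.cub k))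
    (R : Type) [CommRing R] (K : ℕ) (hK : ∀ n, K < n → IsEmpty (N.cub n)) :
    Qis (K := CN N R) (K' := CC R (st N K)) (jc N R K) ⊤ ⊥ ⊤ ⊥ := by
  have h1 := ry_k hG hL hC R K hK K le_rfl
  have h2 : Fk N R K = ⊤ := by
    funext n
    unfold Fk
    by_cases h : n ≤ K
    · rw [if_pos h]
      rfl
    · rw [if_neg h]
      have h3 : IsEmpty (N.cub n) := hK n (by omega)
      refine Submodule.ext fun x => ?_
      have h4 : x = 0 := by
        refine Finsupp.ext fun c => ?_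
        exact (h3.false c).elim
      rw [h4]
      exact ⟨fun _ => zero_mem _, fun _ => zero_mem _⟩
  have h3 : Ak N R (le_refl K) = ⊤ := by
    funext n
    unfold Ak subCF
    have h4 : Set.range (inc (N := N) (le_refl K)) = Set.univ := by
      rw [inc_self]
      exact Set.range_id
    rw [h4, subC_univ]
    rfl
  rw [h2, h3] at h1
  exact h1

theorem ry_sur (hG : ∀ k, Re.Good N (Re.stage N k)) (hL : N.LocFin) (hC : ∀ k, Countable (N.cub k))
    (R : Type) [CommRing R] (K : ℕ) (hK : ∀ n, K < n → IsEmpty (N.cub n)) (n : ℕ)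
    (z : Ch R (st N K) (n + 1)) (hz : dC R (st N K) n z = 0) :
    ∃ x : N.cub (n + 1) →₀ R, N.bd R n x = 0 ∧
      z - jc N R K (n + 1) x ∈ LinearMap.range (dC R (st N K) (n + 1)) := by
  have h1 := ry_qis hG hL hC R K hK
  obtain ⟨β, hβ, hb⟩ := h1.sur (n + 1) z
    (mem_zc_succ.2 ⟨Submodule.mem_top, (Submodule.mem_bot R).2 hz⟩)
  obtain ⟨b, -, a, ha, e⟩ := mem_bd.1 hb
  have ha0 : a = 0 := (Submodule.mem_bot R).1 ha
  rw [ha0, add_zero] at e
  exact ⟨β, (Submodule.mem_bot R).1 (mem_zc_succ.1 hβ).2, b, e⟩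

theorem ry_inj (hG : ∀ k, Re.Good N (Re.stage N k)) (hL : N.LocFin) (hC : ∀ k, Countable (N.cub k))
    (R : Type) [CommRing R] (K : ℕ) (hK : ∀ n, K < n → IsEmpty (N.cub n)) (n : ℕ)
    (x : N.cub (n + 1) →₀ R) (hx : N.bd R n x = 0)
    (h : jc N R K (n + 1) x ∈ LinearMap.range (dC R (st N K) (n + 1))) :
    x ∈ LinearMap.range (N.bd R (n + 1)) := by
  have h1 := ry_qis hG hL hC R K hK
  obtain ⟨b', hb'⟩ := h
  have h2 := h1.inj (n + 1) x
    (mem_zc_succ.2 ⟨Submodule.mem_top, (Submodule.mem_bot R).2 hx⟩)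
    (mem_bd.2 ⟨b', Submodule.mem_top, 0, zero_mem _, by rw [add_zero]; exact hb'⟩)
  obtain ⟨b, -, a, ha, e⟩ := mem_bd.1 h2
  have ha0 : a = 0 := (Submodule.mem_bot R).1 ha
  rw [ha0, add_zero] at e
  exact ⟨b, e⟩

end Pool.H93.RC
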