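import Pool.Agent.H59.FS.PC

/-!
# [H93 RC] The boundary of a precubical set (proofs of helper37, copied from `H37/NF/Bd.lean`)
-/

set_option autoImplicit false
set_option linter.unusedSectionVars false

namespace Pool.H93.RC

open Pool.Agent.H59.FS

noncomputable section

private def iv {n : ℕ} (p : Fin (n + 2) × Fin (n + 1)) : Fin (n + 2) × Fin (n + 1) :=
  if h : (p.1 : ℕ) ≤ p.2 then (p.2.succ, ⟨p.1, lt_of_le_of_lt h p.2.2⟩)
  else (p.2.castSucc, ⟨(p.1 : ℕ) - 1, by have := p.1.2; omega⟩)

theorem sum_zero (R : Type) [CommRing R] {M : Type} [AddCommGroup M] [Module R M] {n : ℕ}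
    (G : Fin (n + 2) → Fin (n + 1) → M)
    (hG : ∀ i j : Fin (n + 1), i ≤ j → G i.castSucc j = G j.succ i) :
    ∑ p : Fin (n + 2) × Fin (n + 1), (-1 : R) ^ ((p.1 : ℕ) + (p.2 : ℕ)) • G p.1 p.2 = 0 := by
  have key : ∀ i j : Fin (n + 1), i ≤ j →
      (-1 : R) ^ ((i.castSucc : ℕ) + (j : ℕ)) • G i.castSucc j +
        (-1 : R) ^ ((j.succ : ℕ) + (i : ℕ)) • G j.succ i = 0 := by
    intro i j hij
    rw [hG i j hij, ← add_smul]
    have h1 : ((j.succ : Fin (n + 2)) : ℕ) + (i : ℕ) = ((i.castSucc : Fin (n + 2)) : ℕ) + (j : ℕ) + 1 := by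
      simp only [Fin.val_succ, Fin.val_castSucc]
      omega
    rw [h1, pow_succ, mul_neg_one, add_neg_cancel, zero_smul]
  refine Finset.sum_involution (fun p _ => iv p) ?_ ?_ (fun _ _ => Finset.mem_univ _) ?_
  · rintro ⟨a, b⟩ -
    by_cases h : (a : ℕ) ≤ b
    · have ha : a = (⟨(a : ℕ), lt_of_le_of_lt h b.2⟩ : Fin (n + 1)).castSucc := Fin.ext rfl
      have hiv : iv (a, b) = (b.succ, ⟨(a : ℕ), lt_of_le_of_lt h b.2⟩) := by
        unfold iv
        rw [dif_pos h]
      rw [hiv]
      have h2 := key ⟨(a : ℕ), lt_of_le_of_lt h b.2⟩ b h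
      rw [← ha] at h2
      exact h2
    · have hlt : (a : ℕ) - 1 < n + 1 := by
        have := a.2
        omega
      have ha : a = (⟨(a : ℕ) - 1, hlt⟩ : Fin (n + 1)).succ := by
        apply Fin.ext
        simp only [Fin.val_succ]
        omega
      have hiv : iv (a, b) = (b.castSucc, ⟨(a : ℕ) - 1, hlt⟩) := by
        unfold iv
        rw [dif_neg h]
      rw [hiv]
      have hle : b ≤ (⟨(a : ℕ) - 1, hlt⟩ : Fin (n + 1)) := by
        rw [Fin.le_def]
        simp only
        omega
      have h2 := key b ⟨(a : ℕ) - 1, hlt⟩ hle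
      rw [← ha] at h2
      rw [add_comm]
      exact h2
  · rintro ⟨a, b⟩ - - h
    by_cases h1 : (a : ℕ) ≤ b
    · have hiv : iv (a, b) = (b.succ, ⟨(a : ℕ), lt_of_le_of_lt h1 b.2⟩) := by
        unfold iv
        rw [dif_pos h1]
      rw [hiv] at h
      have h2 : b.succ = a := congrArg Prod.fst h
      have h3 : (b : ℕ) + 1 = a := by
        rw [← h2]
        simp
      omega
    · have hlt : (a : ℕ) - 1 < n + 1 := by
        have := a.2
        omega
      have hiv : iv (a, b) = (b.castSucc, ⟨(a : ℕ) - 1, hlt⟩) := by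
        unfold iv
        rw [dif_neg h1]
      rw [hiv] at h
      have h2 : b.castSucc = a := congrArg Prod.fst h
      have h3 : (b : ℕ) = a := by
        rw [← h2]
        simp
      omega
  · rintro ⟨a, b⟩ -
    by_cases h1 : (a : ℕ) ≤ b
    · have hiv : iv (a, b) = (b.succ, ⟨(a : ℕ), lt_of_le_of_lt h1 b.2⟩) := by
        unfold iv
        rw [dif_pos h1]
      simp only [hiv]
      unfold iv
      rw [dif_neg (by simp only [Fin.val_succ]; omega)]
      refine Prod.ext (Fin.ext ?_) (Fin.ext ?_)
      · simp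
      · simp
    · have hlt : (a : ℕ) - 1 < n + 1 := by
        have := a.2
        omega
      have hiv : iv (a, b) = (b.castSucc, ⟨(a : ℕ) - 1, hlt⟩) := by
        unfold iv
        rw [dif_neg h1]
      simp only [hiv]
      unfold iv
      rw [dif_pos (by simp only [Fin.val_castSucc]; omega)]
      refine Prod.ext (Fin.ext ?_) (Fin.ext ?_)
      · simp only [Fin.val_succ]
        omega
      · simp


theorem bd_single (N : PreCub) (R : Type) [CommRing R] (n : ℕ) (c : N.cub (n + 1)) (a : R) :
    N.bd R n (Finsupp.single c a) = a • ∑ i : Fin (n + 1), (-1 : R) ^ (i : ℕ) •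
      (Finsupp.single (N.fa n i true c) (1 : R) - Finsupp.single (N.fa n i false c) 1) := by
  rw [PreCub.bd, Finsupp.linearCombination_single]

theorem bd_bd (N : PreCub) (R : Type) [CommRing R] (n : ℕ) (x : N.cub (n + 2) →₀ R) :
    N.bd R n (N.bd R (n + 1) x) = 0 := by
  have h0 : N.bd R n ∘ₗ N.bd R (n + 1) = 0 := by
    refine Finsupp.lhom_ext' fun c => LinearMap.ext_ring ?_
    rw [LinearMap.comp_apply, LinearMap.comp_apply, LinearMap.comp_apply, Finsupp.lsingle_apply,
      bd_single, one_smul, map_sum, LinearMap.zero_apply]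
    let S : N.cub n → (N.cub n →₀ R) := fun d => Finsupp.single d 1
    let G : Fin (n + 2) → Fin (n + 1) → (N.cub n →₀ R) := fun a b =>
      (S (N.fa n b true (N.fa (n + 1) a true c)) - S (N.fa n b false (N.fa (n + 1) a true c))) -
      (S (N.fa n b true (N.fa (n + 1) a false c)) - S (N.fa n b false (N.fa (n + 1) a false c)))
    have hG : ∀ i j : Fin (n + 1), i ≤ j → G i.castSucc j = G j.succ i := by
      intro i j hij
      simp only [G]
      rw [N.fa_fa n i j true true c hij, N.fa_fa n i j false true c hij,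
        N.fa_fa n i j true false c hij, N.fa_fa n i j false false c hij]
      abel
    rw [← sum_zero R G hG, Fintype.sum_prod_type]
    refine Finset.sum_congr rfl fun i _ => ?_
    rw [map_smul, map_sub, bd_single, bd_single, one_smul, one_smul, ← Finset.sum_sub_distrib,
      Finset.smul_sum]
    refine Finset.sum_congr rfl fun j _ => ?_
    rw [← smul_sub, smul_smul, ← pow_add]
  exact LinearMap.congr_fun h0 x

theorem bd_act {Γ : Type} [Group Γ] (N : PreCub) [∀ n, MulAction Γ (N.cub n)] (R : Type) [CommRing R]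
    (hN : N.Act Γ) (n : ℕ) (g : Γ) (x : N.cub (n + 1) →₀ R) :
    N.bd R n (Finsupp.mapDomain (fun c => g • c) x) = Finsupp.mapDomain (fun c => g • c) (N.bd R n x) := by
  induction x using Finsupp.induction_linear with
  | zero => simp
  | add u v hu hv => simp only [Finsupp.mapDomain_add, map_add, hu, hv]
  | single c a =>
    have h1 : ∀ (f : N.cub n → N.cub n) (y : N.cub n →₀ R), Finsupp.mapDomain f y =
        Finsupp.lmapDomain R R f y := fun _ _ => rfl
    rw [Finsupp.mapDomain_single, bd_single, bd_single, h1, map_smul, map_sum]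
    congr 1
    refine Finset.sum_congr rfl fun i _ => ?_
    rw [map_smul, map_sub, Finsupp.lmapDomain_apply, Finsupp.lmapDomain_apply, Finsupp.mapDomain_single,
      Finsupp.mapDomain_single, hN, hN]

end

end Pool.H93.RC
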