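import Pool.Agent.H93.RC.Bb
import Pool.Agent.H18.AR.ReE
import Pool.Agent.H93.HM.Pch

/-!
# [H93 RC] Cellular chains of the realisation of a precubical set, definitions

`CN N R`: the cellular complex of `N`. `st N k` the `k`-skeleton of the realisation, `inc h : st N k → st N K` the
inclusion, `chc N n c` the characteristic cube of `c : N.cub n`, as a singular cube of `st N n`.
`jc N R K n : (N.cub n →₀ R) → Ch R (st N K) n`, `c ↦ (-1)^n inc ∘ chc c` (the sign: `PreCub.bd` has the sign
`true - false`, `dC` has `0 - 1`). `Fk R N k`: the chains of degree `≤ k`; `Ak R N K k`: the singular chains in `st N k ⊆ st N K`.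
-/

set_option autoImplicit false

namespace Pool.H93.RC

open Pool.Agent.H4.CU Pool.Agent.H18.AR Pool.Agent.H59.FS Pool.H93.HM

/-- the cellular chain complex -/
noncomputable def CN (N : PreCub) (R : Type) [CommRing R] : Cx R where
  M n := N.cub n →₀ R
  d n := N.bd R n
  dd n x := bd_bd N R n x

/-- the `k`-skeleton -/
abbrev st (N : PreCub) (k : ℕ) : Type := (Re.stage N k).X

/-- the inclusion of the skeleta, one step -/
noncomputable def jst (N : PreCub) (k : ℕ) : C(st N k, st N (k + 1)) :=
  jYc (Re.bdry N (k + 1)) (Re.att N (Re.stage N k))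

/-- the inclusion of the skeleta -/
noncomputable def inc {N : PreCub} {k K : ℕ} (h : k ≤ K) : C(st N k, st N K) :=
  Nat.leRecOn (C := fun m => C(st N k, st N m)) h (fun {m} f => (jst N m).comp f) (ContinuousMap.id _)

theorem st_cont (N : PreCub) (n : ℕ) :
    Continuous (fun z : Re.Cu N n × Pool.H93.HU.Cb n => (Re.stage N n).ch z.1 z.2) := by
  cases n with
  | zero => exact continuous_fst
  | succ n => exact PO.jB_continuous

/-- the characteristic cube -/
noncomputable def chc (N : PreCub) (n : ℕ) (c : N.cub n) : Cb (st N n) n :=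
  ⟨fun x => (Re.stage N n).ch c x, (st_cont N n).comp (Continuous.prodMk_right (X := Re.Cu N n) c)⟩

theorem chc_succ (N : PreCub) (n : ℕ) (c : N.cub (n + 1)) :
    chc N (n + 1) c = chr (F := Re.Cu N (n + 1)) (Re.att N (Re.stage N n)) c := rfl

/-- from cellular chains to singular chains -/
noncomputable def jc (N : PreCub) (R : Type) [CommRing R] (K n : ℕ) :
    (N.cub n →₀ R) →ₗ[R] Ch R (st N K) n :=
  if h : n ≤ K then Finsupp.linearCombination R fun c => (-1 : R) ^ n • gC R ((inc h).comp (chc N n c))
  else 0

/-- the chains of degree `≤ k` -/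
noncomputable def Fk (N : PreCub) (R : Type) [CommRing R] (k : ℕ) : Fam (CN N R) := fun n => if n ≤ k then ⊤ else ⊥

/-- the singular chains in the `k`-skeleton -/
noncomputable def Ak (N : PreCub) (R : Type) [CommRing R] {k K : ℕ} (h : k ≤ K) : Fam (CC R (st N K)) :=
  subCF R (Set.range (inc (N := N) h))

end Pool.H93.RC
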