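import Pool.Agent.H93.RC.Defs

/-!
# [H93 RC A] The inclusions of the skeleta

PROOFS (complete). `Nat.leRecOn_self`, `Nat.leRecOn_succ`. `inc_self`: `Nat.leRecOn_self`. `inc_succ`: `Nat.leRecOn_succ`. `inc_left`: `Nat.le_induction` on `k + 1 ≤ K`: base: `inc_succ`, `inc_self`, `ContinuousMap.comp_id`, `id_comp`; step: `inc_succ` on both sides,
`ContinuousMap.comp_assoc`. `inc_closed`: `Nat.le_induction`: `jst` is a closed embedding: `PO.jY_closedEmbedding hD hY hB` with `hD = Re.att_podata (hG n) hL`, `hY = (hG n).lcs`, `hB = lcs_prod lcs_discrete lcs_compact` (`Countable (Re.Cu N (n + 1))` from `hC (n + 1)` by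
`inferInstanceAs`); composition of closed embeddings. `inc_inj`: from `inc_closed`. `inc_range`: `inc_left`, `Set.range_comp`; `preimage`: `inc_left` and injectivity. `face_chc`: `ContinuousMap.ext`; for `x : Qb n` the left side is `PO.jB _ _ (c, i.insertNth (ep e) x)`
(`rfl`), the point is in `Re.bdry` (`⟨i, _⟩`, `Fin.insertNth_apply_same`), `PO.jB_mem`, `Re.att_eq (hG n) c _ i e`, `pr i (i.insertNth (ep e) x) = x` (`Fin.insertNth_apply_succAbove`, `funext`).
-/

set_option autoImplicit false

namespace Pool.H93.RC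

open Pool.Agent.H4.CU Pool.Agent.H18.AR Pool.Agent.H59.FS Pool.H93.HM Pool.H93.HU

variable {N : PreCub}

theorem inc_self (K : ℕ) (h : K ≤ K) : inc (N := N) h = ContinuousMap.id _ := by
  unfold inc
  exact Nat.leRecOn_self (C := fun m => C(st N K, st N m)) _

theorem inc_succ {k K : ℕ} (h : k ≤ K) (h' : k ≤ K + 1) :
    inc (N := N) h' = (jst N K).comp (inc h) := by
  unfold inc
  exact Nat.leRecOn_succ (C := fun m => C(st N k, st N m)) h _

theorem inc_left {k K : ℕ} (h : k + 1 ≤ K) (h' : k ≤ K) : inc (N := N) h' = (inc h).comp (jst N k) := by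
  induction K, h using Nat.le_induction with
  | base =>
    rw [inc_succ (le_refl k) h', inc_self, inc_self, ContinuousMap.comp_id, ContinuousMap.id_comp]
  | succ K hK ih =>
    rw [inc_succ (Nat.le_of_succ_le hK) h', inc_succ hK, ih (Nat.le_of_succ_le hK), ContinuousMap.comp_assoc]

variable (hG : ∀ k, Re.Good N (Re.stage N k)) (hL : N.LocFin) (hC : ∀ k, Countable (N.cub k))

include hG hL hC

private theorem jst_closed (k : ℕ) : Topology.IsClosedEmbedding (jst N k) := by
  have hc : Countable (Re.Cu N (k + 1)) := hC (k + 1)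
  exact PO.jY_closedEmbedding (Re.att_podata (hG k) hL) (hG k).lcs (lcs_prod lcs_discrete lcs_compact)

theorem inc_closed {k K : ℕ} (h : k ≤ K) : Topology.IsClosedEmbedding (inc (N := N) h) := by
  induction K, h using Nat.le_induction with
  | base =>
    rw [inc_self]
    exact Topology.IsClosedEmbedding.id
  | succ K hK ih =>
    rw [inc_succ hK]
    exact (jst_closed hG hL hC K).comp ih

theorem inc_emb {k K : ℕ} (h : k ≤ K) :
    Topology.IsEmbedding (fun v : (Set.univ : Set (st N k)) => inc (N := N) h v) :=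
  (inc_closed hG hL hC h).isEmbedding.comp Topology.IsEmbedding.subtypeVal

omit hG hL hC in
private theorem inc_left_apply {k K : ℕ} (h : k + 1 ≤ K) (h' : k ≤ K) (x : st N k) :
    inc (N := N) h' x = inc h (jst N k x) :=
  congrArg (fun f : C(st N k, st N K) => f x) (inc_left h h')

theorem inc_range {k K : ℕ} (h : k + 1 ≤ K) (h' : k ≤ K) :
    Set.range (inc (N := N) h') ⊆ Set.range (inc (N := N) h) := by
  rintro _ ⟨x, rfl⟩
  exact ⟨jst N k x, (inc_left_apply h h' x).symm⟩

theorem inc_pre {k K : ℕ} (h : k + 1 ≤ K) (h' : k ≤ K) :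
    inc (N := N) h ⁻¹' Set.range (inc (N := N) h') = Set.range (jst N k) := by
  ext y
  constructor
  · rintro ⟨x, hx⟩
    rw [inc_left_apply h h'] at hx
    exact ⟨x, (inc_closed hG hL hC h).injective hx⟩
  · rintro ⟨x, rfl⟩
    exact ⟨x, inc_left_apply h h' x⟩

omit hL hC in
theorem face_chc (n : ℕ) (c : N.cub (n + 1)) (i : Fin (n + 1)) (e : Bool) :
    face i (ep e) (chc N (n + 1) c) = (jst N n).comp (chc N n (N.fa n i e c)) := by
  refine ContinuousMap.ext fun x => ?_
  have h0 : (i.insertNth (ep e) x : Qb (n + 1)) i = ep e := Fin.insertNth_apply_same _ _ _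
  have hm : ((c, (i.insertNth (ep e) x : Qb (n + 1))) : Re.Cu N (n + 1) × Pool.H93.HU.Cb (n + 1)) ∈
      Re.bdry N (n + 1) := by
    refine ⟨i, ?_⟩
    change (i.insertNth (ep e) x : Qb (n + 1)) i = 0 ∨ (i.insertNth (ep e) x : Qb (n + 1)) i = 1
    rw [h0]
    cases e
    · exact Or.inl rfl
    · exact Or.inr rfl
  have h1 : face i (ep e) (chc N (n + 1) c) x =
      PO.jB (Re.bdry N (n + 1)) (Re.att N (Re.stage N n)) (c, (i.insertNth (ep e) x : Qb (n + 1))) := rfl
  have h2 : pr i (i.insertNth (ep e) x : Qb (n + 1)) = x := by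
    funext j
    change (i.insertNth (ep e) x : Qb (n + 1)) (i.succAbove j) = x j
    rw [Fin.insertNth_apply_succAbove]
  rw [h1, PO.jB_mem hm, Re.att_eq (hG n) c _ i e h0, h2]
  rfl

end Pool.H93.RC
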