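import Pool.Agent.H93.RC.Rca

/-!
# [H93 RC B] From cellular to singular chains: a chain map

PROOF of `jc_bd` (complete). Linear in `x`, so `x = single c 1` (`Finsupp.lhom_ext'`, `LinearMap.ext_ring`). Case `n + 1 ≤ K`: both `dif_pos`. `N.bd (single c 1) = Σ_i (-1)^i (single (fa true) 1 - single (fa false) 1)` (`bd_single`, `one_smul`), so the left side is
`(-1)^n Σ_i (-1)^i (gC (inc h (chc (fa i true c))) - gC (inc h (chc (fa i false c))))`. Right side: `(-1)^(n+1) • dC (gC (inc h' ∘ chc (n+1) c)) = (-1)^(n+1) Σ_i (-1)^i (gC (face i 0 ..) - gC (face i 1 ..))` (`dC_gC`), `face_comp`, `face_chc` with `ep false = 0`,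
`ep true = 1`, `inc_left`: `(inc h').comp ((jst N n).comp _) = (inc h).comp _`. The sign: `(-1)^(n+1) = -(-1)^n`.
Case `K ≤ n`: `N.cub (n + 1)` is empty, so `x = 0` (`Subsingleton`), both sides `0`.
`jc_act`: `chc` and `inc` commute with the action: `(act (n := K) g) (inc h (chc c x)) = inc h (chc (g • c) x)`: by induction on `K - n` (`Nat.le_induction`) from `(Re.act hN n).eq` and `(Re.act hN (n + 1)).act.smul g (jY y) = jY (g • y)` (`PO.smul_jY`, see `Re.vtx_smul`
for how to do it); here `RYm hN K g : C(st N K, st N K)` is the map `z ↦ (Re.act hN K).act.smul g z`.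
-/

set_option autoImplicit false

namespace Pool.H93.RC

open Pool.Agent.H4.CU Pool.Agent.H18.AR Pool.Agent.H59.FS Pool.H93.HM Pool.H93.HU

variable {N : PreCub}

private theorem jc_single (R : Type) [CommRing R] {K n : ℕ} (h : n ≤ K) (c : N.cub n) (a : R) :
    jc N R K n (Finsupp.single c a) = a • ((-1 : R) ^ n • gC R ((inc h).comp (chc N n c))) := by
  unfold jc
  rw [dif_pos h, Finsupp.linearCombination_single]

theorem jc_bd (hG : ∀ k, Re.Good N (Re.stage N k)) (R : Type) [CommRing R] (K : ℕ)
    (hK : ∀ n, K < n → IsEmpty (N.cub n)) (n : ℕ) (x : N.cub (n + 1) →₀ R) :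
    jc N R K n (N.bd R n x) = dC R (st N K) n (jc N R K (n + 1) x) := by
  by_cases h : n + 1 ≤ K
  · have h' : n ≤ K := Nat.le_of_succ_le h
    have key : (jc N R K n).comp (N.bd R n) = (dC R (st N K) n).comp (jc N R K (n + 1)) := by
      refine Finsupp.lhom_ext' fun c => LinearMap.ext_ring ?_
      simp only [LinearMap.comp_apply, Finsupp.lsingle_apply]
      rw [bd_single, one_smul, jc_single R h, one_smul, map_sum, map_smul, dC_gC, Finset.smul_sum]
      refine Finset.sum_congr rfl fun i _ => ?_
      have e : ∀ b : Bool, face i (ep b) ((inc h).comp (chc N (n + 1) c)) =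
          (inc h').comp (chc N n (N.fa n i b c)) := by
        intro b
        rw [face_comp, face_chc hG, ← ContinuousMap.comp_assoc, ← inc_left h h']
      have e0 := e false
      have e1 := e true
      have f0 : ep false = 0 := rfl
      have f1 : ep true = 1 := rfl
      rw [f0] at e0
      rw [f1] at e1
      rw [map_smul, map_sub, jc_single R h', jc_single R h', e0, e1, one_smul, one_smul, pow_succ, ← smul_sub,
        smul_smul, smul_smul, ← neg_sub (gC R ((inc h').comp (chc N n (N.fa n i false c)))), smul_neg, ← neg_smul]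
      congr 1
      ring
    exact congrArg (fun f => f x) key
  · have : IsEmpty (N.cub (n + 1)) := hK (n + 1) (by omega)
    have hx : x = 0 := Subsingleton.elim _ _
    rw [hx, map_zero, map_zero, map_zero, map_zero]

theorem smul_inc {G : Type} [Group G] [∀ n, MulAction G (N.cub n)] (hN : N.Act G) {n K : ℕ} (h : n ≤ K)
    (g : G) (y : st N n) :
    inc (N := N) h ((Re.act hN n).act.smul g y) = (Re.act hN K).act.smul g (inc (N := N) h y) := by
  induction K, h using Nat.le_induction with
  | base =>
    rw [inc_self]
    rfl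
  | succ K hK ih =>
    rw [inc_succ hK]
    change jst N K (inc (N := N) hK ((Re.act hN n).act.smul g y)) = _
    rw [ih]
    rfl

theorem jc_act (R : Type) [CommRing R] {G : Type} [Group G] [∀ n, MulAction G (N.cub n)]
    (hN : N.Act G) (K n : ℕ) (g : G) (f : C(st N K, st N K))
    (hf : ∀ z, f z = (Re.act hN K).act.smul g z) (x : N.cub n →₀ R) :
    jc N R K n (Finsupp.mapDomain (fun c => g • c) x) = mapC R n f (jc N R K n x) := by
  by_cases h : n ≤ K
  · have key : (jc N R K n).comp (Finsupp.lmapDomain R R fun c : N.cub n => g • c) =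
        (mapC R n f).comp (jc N R K n) := by
      refine Finsupp.lhom_ext' fun c => LinearMap.ext_ring ?_
      simp only [LinearMap.comp_apply, Finsupp.lsingle_apply, Finsupp.lmapDomain_apply]
      rw [Finsupp.mapDomain_single, jc_single R h, jc_single R h, one_smul, one_smul, map_smul, mapC_gC]
      congr 2
      refine ContinuousMap.ext fun y => ?_
      change inc (N := N) h ((Re.stage N n).ch (g • c) y) = f (inc (N := N) h ((Re.stage N n).ch c y))
      rw [hf, ← smul_inc hN h]
      congr 1
      exact (Re.act hN n).eq g c y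
    exact congrArg (fun f => f x) key
  · have h0 : jc N R K n = 0 := by
      unfold jc
      rw [dif_neg h]
    rw [h0, LinearMap.zero_apply, LinearMap.zero_apply, map_zero]

end Pool.H93.RC
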