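import Pool.Agent.H93.RC.Rcb

/-!
# [H93 RC C] The relative homology of one level

PROOF (complete). Write `i = inc h`, `i' = inc h' = i ∘ jst` (`inc_left`), `X = st N (k + 1) = PO (bF (Cu N (k+1)) (k+1)) (att ..)` (`Re.bdry` is `bF` by `rfl`), `F = Re.Cu N (k + 1)`, `D = Re.att_podata (hG k) hL`, `(hG k).lcs`,
`hB : LCS (F × Qb (k + 1)) := lcs_prod lcs_discrete lcs_compact`, `chc_succ : chc (k + 1) c = chr .. c`.
(0) TRANSFER: if `z ∈ subC (range i) n` (any `n`) then `z = mapC i v` (`lift R i univ (inc_emb ..)`, `Set.image_univ`), and if `z ∈ Zc (Ak h) (Ak h') n` then `v ∈ Zc ⊤ (subCF (range (jst N k))) n`: for `n = m + 1`: `mapC i (dC v) = dC z ∈ subC (range i')`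
(`dC_mapC`), `back R i univ`: `dC v ∈ subC (univ ∩ i ⁻¹' range i') = subC (range jst)` (`inc_pre`). Conversely `mapC i` maps `Bd (CC R X) ⊤ (subCF (range jst)) n` into `Bd (CC R (st N K)) (Ak h) (Ak h') n`: `mapC i (dC w + a) = dC (mapC i w) + mapC i a`, `mapC i w ∈ subC (range i)`,
`mapC i a ∈ subC (range i')` (`pch_sub`-like span induction, `i '' range jst = range i'`).
(1) sur, `n ≠ k + 1`: `β = 0`, `v ∈ Bd` by `pc_ne`, so `z - 0 ∈ Bd`. sur, `n = k + 1` (`subst`): `pc_eq` gives `c : F →₀ R`, `v - Σ c_f gC (chr f) ∈ Bd`; `β = (-1)^(k+1) • c ∈ ⊤` (`Fk` at `k + 1`; `d β ∈ Fk k k = ⊤`), `jc β = Σ (-1)^(k+1) (-1)^(k+1) c_f gC (i ∘ chc f)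
= mapC i (Σ c_f gC (chr f))`.
(2) inj: `n ≤ k`: `Fk k n = ⊤`, `β = d 0 + β ∈ Bd`. `n ≥ k + 2`: `β ∈ Fk (k+1) n = ⊥`, `β = 0`. `n = k + 1`: `jc β = d w' + a'`, `w' = mapC i w`, `a' = mapC i' a = mapC i (mapC jst a)`, and `jc β = mapC i (Σ (-1)^(k+1) β_f gC (chr f))`. `mapC i` is injective
(`inj R i univ`), so `Σ ((-1)^(k+1) β_f) gC (chr f) = d w + mapC jst a ∈ Bd ⊤ (subCF (range jY))`, `pc_inj`: `(-1)^(k+1) • β = 0`, so `β = 0`.
-/

set_option autoImplicit false

namespace Pool.H93.RC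

open Pool.Agent.H4.CU Pool.Agent.H18.AR Pool.Agent.H59.FS Pool.H93.HM

variable {N : PreCub}

section transfer

variable (R : Type) [CommRing R] {Z Z' : Type} [TopologicalSpace Z] [TopologicalSpace Z']

private theorem rcc_sub {j : C(Z, Z')} {S : Set Z} {S' : Set Z'} (h : j '' S ⊆ S') {n : ℕ}
    {x : Ch R Z n} (hx : x ∈ subC R n S) : mapC R n j x ∈ subC R n S' := by
  have h1 : subC R n S ≤ (subC R n S').comap (mapC R n j) := by
    unfold subC
    rw [Submodule.span_le]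
    rintro c ⟨σ, hσ, rfl⟩
    rw [SetLike.mem_coe, Submodule.mem_comap, mapC_gC]
    refine Submodule.subset_span ⟨j.comp σ, ?_, rfl⟩
    rintro _ ⟨y, rfl⟩
    exact h ⟨σ y, hσ ⟨y, rfl⟩, rfl⟩
  exact h1 hx

private theorem rcc_d (j : C(Z, Z')) (n : ℕ) (x : Ch R Z (n + 1)) :
    dC R Z' n (mapC R (n + 1) j x) = mapC R n j (dC R Z n x) :=
  congrArg (fun f => f x) (dC_mapC j)

private theorem rcc_univ (n : ℕ) (x : Ch R Z n) : x ∈ subC R n (Set.univ : Set Z) := by
  rw [subC_univ]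
  trivial

private theorem rcc_emb {j : C(Z, Z')} (hj : Topology.IsEmbedding j) (V : Set Z) :
    Topology.IsEmbedding (fun v : V => j v) := hj.comp Topology.IsEmbedding.subtypeVal

private theorem rcc_t1 {j : C(Z, Z')} (hj : Topology.IsEmbedding j) (S : Set Z) (n : ℕ) (z : Ch R Z' n)
    (hz : z ∈ Zc (CC R Z') (subCF R (Set.range j)) (subCF R (j '' S)) n) :
    ∃ v : Ch R Z n, v ∈ Zc (CC R Z) ⊤ (subCF R S) n ∧ mapC R n j v = z := by
  have h0 : z ∈ subC R n (Set.range j) := by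
    cases n with
    | zero => exact mem_zc_zero.1 hz
    | succ n => exact (mem_zc_succ.1 hz).1
  rw [← Set.image_univ] at h0
  obtain ⟨v, -, hv⟩ := lift R j Set.univ (rcc_emb hj _) n z h0
  refine ⟨v, ?_, hv⟩
  cases n with
  | zero => exact mem_zc_zero.2 trivial
  | succ n =>
    refine mem_zc_succ.2 ⟨trivial, ?_⟩
    have h1 : dC R Z' n z ∈ subC R n (j '' S) := (mem_zc_succ.1 hz).2
    rw [← hv, rcc_d] at h1
    have h2 := back R j Set.univ (rcc_emb hj _) n (j '' S) (dC R Z n v) (rcc_univ R n _) h1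
    rw [Set.univ_inter, Set.preimage_image_eq _ hj.injective] at h2
    exact h2

private theorem rcc_t2 (j : C(Z, Z')) (S : Set Z) (n : ℕ) {x : Ch R Z n}
    (hx : x ∈ Bd (CC R Z) ⊤ (subCF R S) n) :
    mapC R n j x ∈ Bd (CC R Z') (subCF R (Set.range j)) (subCF R (j '' S)) n := by
  obtain ⟨w, a, ha, e2⟩ : ∃ (w : Ch R Z (n + 1)) (a : Ch R Z n), a ∈ subC R n S ∧
      dC R Z n w + a = x := by
    obtain ⟨w, -, a, ha, e⟩ := mem_bd.1 hx
    exact ⟨w, a, ha, e⟩
  refine mem_bd.2 ⟨mapC R (n + 1) j w, ?_, mapC R n j a, rcc_sub R (le_refl _) ha, ?_⟩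
  · exact rcc_sub R (Set.image_subset_range j Set.univ) (rcc_univ R (n + 1) w)
  · show dC R Z' n (mapC R (n + 1) j w) + mapC R n j a = mapC R n j x
    rw [rcc_d, ← map_add, e2]

private theorem rcc_t3 {j : C(Z, Z')} (hj : Topology.IsEmbedding j) (S : Set Z) (n : ℕ) {x : Ch R Z n}
    (hx : mapC R n j x ∈ Bd (CC R Z') (subCF R (Set.range j)) (subCF R (j '' S)) n) :
    x ∈ Bd (CC R Z) ⊤ (subCF R S) n := by
  obtain ⟨w', hw', a', ha', e2⟩ : ∃ (w' : Ch R Z' (n + 1)) (_ : w' ∈ subC R (n + 1) (Set.range j))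
      (a' : Ch R Z' n), ∃ (_ : a' ∈ subC R n (j '' S)), dC R Z' n w' + a' = mapC R n j x := by
    obtain ⟨w, hw, a, ha, e⟩ := mem_bd.1 hx
    exact ⟨w, hw, a, ha, e⟩
  rw [← Set.image_univ] at hw'
  obtain ⟨w, -, hw⟩ := lift R j Set.univ (rcc_emb hj _) (n + 1) w' hw'
  obtain ⟨a, ha, ha2⟩ := lift R j S (rcc_emb hj _) n a' ha'
  have h1 : mapC R n j (x - (dC R Z n w + a)) = 0 := by
    rw [map_sub, map_add, ← rcc_d, hw, ha2, e2, sub_self]
  have h2 := inj R j Set.univ (rcc_emb hj _) n _ (rcc_univ R n _) h1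
  refine mem_bd.2 ⟨w, trivial, a, ha, ?_⟩
  show dC R Z n w + a = x
  exact (sub_eq_zero.1 h2).symm

end transfer

private theorem rcc_jc (R : Type) [CommRing R] {k K : ℕ} (h : k + 1 ≤ K) (c : N.cub (k + 1) →₀ R) :
    jc N R K (k + 1) c = mapC R (k + 1) (inc (N := N) h)
      ((-1 : R) ^ (k + 1) • Finsupp.linearCombination R (fun f => gC R (chc N (k + 1) f)) c) := by
  unfold jc
  rw [dif_pos h, Finsupp.linearCombination_apply, Finsupp.linearCombination_apply, map_smul, Finsupp.sum,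
    Finsupp.sum, map_sum, Finset.smul_sum]
  refine Finset.sum_congr rfl fun f _ => ?_
  rw [map_smul, mapC_gC, smul_comm]

private theorem rcc_sgn (R : Type) [CommRing R] {M : Type} [AddCommGroup M] [Module R M] (k : ℕ) (x : M) :
    (-1 : R) ^ k • ((-1 : R) ^ k • x) = x := by
  rw [smul_smul, ← mul_pow, neg_one_mul, neg_neg, one_pow, one_smul]

private theorem rcc_fk (R : Type) [CommRing R] {k n : ℕ} (hn : n ≤ k) (x : N.cub n →₀ R) : x ∈ Fk N R k n := by
  have h : Fk N R k n = ⊤ := if_pos hn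
  rw [h]
  trivial

theorem lev_qis (hG : ∀ k, Re.Good N (Re.stage N k)) (hL : N.LocFin) (hC : ∀ k, Countable (N.cub k))
    (R : Type) [CommRing R] {k K : ℕ} (h : k + 1 ≤ K) (h' : k ≤ K) :
    Qis (K := CN N R) (K' := CC R (st N K)) (jc N R K) (Fk N R (k + 1)) (Fk N R k) (Ak N R h)
      (Ak N R h') := by
  have hc : Countable (Re.Cu N (k + 1)) := hC (k + 1)
  have hD := Re.att_podata (hG k) hL
  have hY := (hG k).lcs
  have hB : LCS (Re.Cu N (k + 1) × Qb (k + 1)) := lcs_prod lcs_discrete lcs_compact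
  have hj := (inc_closed hG hL hC h).isEmbedding
  have hr : Set.range (inc (N := N) h') = inc (N := N) h '' Set.range (jst N k) := by
    rw [← Set.range_comp]
    congr 1
    funext x
    exact congrArg (fun f : C(st N k, st N K) => f x) (inc_left h h')
  have hAk : Ak N R h' = subCF R (inc (N := N) h '' Set.range (jst N k)) := by
    unfold Ak
    rw [hr]
  have hAk' : Ak N R h = subCF R (Set.range (inc (N := N) h)) := rfl
  rw [hAk, hAk']
  refine ⟨fun n z hz => ?_, fun n β hβ hb => ?_⟩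
  · obtain ⟨v, hv, rfl⟩ := rcc_t1 R hj _ n z hz
    by_cases hn : n = k + 1
    · subst hn
      obtain ⟨c, hcc⟩ : ∃ c : N.cub (k + 1) →₀ R,
          (show Ch R (st N (k + 1)) (k + 1) from v -
            Finsupp.linearCombination R (fun f => gC R (chc N (k + 1) f)) c) ∈
          Bd (CC R (st N (k + 1))) ⊤ (subCF R (Set.range (jst N k))) (k + 1) :=
        pc_eq R (F := Re.Cu N (k + 1)) (k := k + 1) (φ := Re.att N (Re.stage N k)) hD hY hB v hv
      have h1 := rcc_t2 R (inc (N := N) h) (Set.range (jst N k)) (k + 1) hcc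
      obtain ⟨β, hβ⟩ : ∃ β : N.cub (k + 1) →₀ R, β = (-1 : R) ^ (k + 1) • c := ⟨_, rfl⟩
      refine ⟨β, mem_zc_succ.2 ⟨rcc_fk R (le_refl _) _, rcc_fk R (le_refl _) _⟩, ?_⟩
      have e1 : jc N R K (k + 1) β = mapC R (k + 1) (inc (N := N) h)
          (Finsupp.linearCombination R (fun f => gC R (chc N (k + 1) f)) c) := by
        rw [hβ, rcc_jc R h, map_smul (Finsupp.linearCombination R _), rcc_sgn]
      show mapC R (k + 1) (inc (N := N) h) v - jc N R K (k + 1) β ∈ _
      rw [e1, ← map_sub]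
      exact h1
    · have h1 := pc_ne R (F := Re.Cu N (k + 1)) (k := k + 1) (φ := Re.att N (Re.stage N k)) hD hY hB n hn hv
      have h2 := rcc_t2 R (inc (N := N) h) (Set.range (jst N k)) n h1
      refine ⟨(0 : N.cub n →₀ R), Submodule.zero_mem _, ?_⟩
      show mapC R n (inc (N := N) h) v - jc N R K n (0 : N.cub n →₀ R) ∈ _
      rw [map_zero, sub_zero]
      exact h2
  · have hC' : β ∈ Fk N R (k + 1) n := by
      cases n with
      | zero => exact mem_zc_zero.1 hβ
      | succ n => exact (mem_zc_succ.1 hβ).1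
    rcases lt_trichotomy n (k + 1) with hn | hn | hn
    · refine mem_bd.2 ⟨0, Submodule.zero_mem _, β, rcc_fk R (Nat.lt_succ_iff.1 hn) β, ?_⟩
      rw [map_zero, zero_add]
    · subst hn
      have e1 := rcc_jc R h β
      have h1 : mapC R (k + 1) (inc (N := N) h) ((-1 : R) ^ (k + 1) •
          Finsupp.linearCombination R (fun f => gC R (chc N (k + 1) f)) (β : N.cub (k + 1) →₀ R)) ∈
          Bd (CC R (st N K)) (subCF R (Set.range (inc (N := N) h)))
            (subCF R (inc (N := N) h '' Set.range (jst N k))) (k + 1) := by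
        rw [← e1]
        exact hb
      have h2 := rcc_t3 R hj (Set.range (jst N k)) (k + 1) h1
      have h3 := Submodule.smul_mem _ ((-1 : R) ^ (k + 1)) h2
      have h4 : Finsupp.linearCombination R (fun f => gC R (chc N (k + 1) f)) (β : N.cub (k + 1) →₀ R) ∈
          Bd (CC R (st N (k + 1))) ⊤ (subCF R (Set.range (jst N k))) (k + 1) := by
        have e2 := rcc_sgn R (k + 1)
          (Finsupp.linearCombination R (fun f => gC R (chc N (k + 1) f)) (β : N.cub (k + 1) →₀ R))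
        rw [← e2]
        exact h3
      have h5 : (β : N.cub (k + 1) →₀ R) = 0 :=
        pc_inj R (F := Re.Cu N (k + 1)) (k := k + 1) (φ := Re.att N (Re.stage N k)) hD hY hB β h4
      have h6 : β = 0 := h5
      rw [h6]
      exact Submodule.zero_mem _
    · have h0 : Fk N R (k + 1) n = ⊥ := if_neg (not_le.2 hn)
      rw [h0] at hC'
      rw [(Submodule.mem_bot R).1 hC']
      exact Submodule.zero_mem _

end Pool.H93.RC
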